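import Pool.Agent.R524.SD.Lim

/-!
# Axes without half-planes are contracting (helper524)
-/

set_option autoImplicit false

universe u v

open Metric Set Filter Topology
open Pool.Agent.TH60.FP Pool.Agent.Y34.HB Pool.Agent.Y34.EL
open Pool.Agent.Y901.EL (on_dist on_restrict on_symm on_nonneg on_le)

namespace Pool.Agent.R524.SD

theorem foot_unique {X : Type u} [MetricSpace X] [ProperSpace X] (hX : CN X)
    {c : ℝ → X} (hc : Isometry c) {x : X} {s t : ℝ} (h1 : Foot c x s) (h2 : Foot c x t) : s = t := by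
  have h := foot_lip hX hc h1 h2
  rw [dist_self] at h
  have h3 : |s - t| = 0 := le_antisymm h (abs_nonneg _)
  linarith [abs_eq_zero.1 h3]

/-- geodesics as continuous maps -/
theorem geod {X : Type u} [MetricSpace X] [ProperSpace X] (hX : CN X) (x y : X) :
    ∃ γ : ℝ → X, γ 0 = x ∧ γ (dist x y) = y ∧ ContinuousOn γ (Icc 0 (dist x y)) ∧
      ∀ t ∈ Icc 0 (dist x y), dist x (γ t) = t ∧ dist (γ t) y = dist x y - t := by
  classical
  obtain ⟨hex, huniq, -⟩ := t_stew X hX
  have H : ∀ t : ℝ, ∃ z : X, t ∈ Icc 0 (dist x y) → On x y t z := by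
    intro t
    by_cases ht : t ∈ Icc 0 (dist x y)
    · obtain ⟨z, hz⟩ := hex x y t ht.1 ht.2
      exact ⟨z, fun _ => hz⟩
    · exact ⟨x, fun h => absurd h ht⟩
  choose γ hγ using H
  refine ⟨γ, ?_, ?_, ?_, fun t ht => hγ t ht⟩
  · have h := (hγ 0 ⟨le_rfl, dist_nonneg⟩).1
    exact (dist_eq_zero.1 h).symm
  · have h := (hγ (dist x y) ⟨dist_nonneg, le_rfl⟩).2
    rw [sub_self] at h
    exact dist_eq_zero.1 h
  · refine (LipschitzOnWith.of_dist_le_mul (K := 1) fun s hs t ht => ?_).continuousOn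
    rw [on_dist t_stew hX (hγ s hs) (hγ t ht), Real.dist_eq]
    simp

/-- there is no long segment at almost constant large distance from an axis without half-planes -/
theorem no_seg {X : Type u} [MetricSpace X] [ProperSpace X] (hX : CN X)
    {G : Type v} [Group G] [MulAction G X] [IsIsometricSMul G X]
    {g : G} {τ : ℝ} {c : ℝ → X} (hc : Isometry c) (hax : ∀ t, g • c t = c (t + τ)) (hτ : 0 < τ)
    (hno : HP c = ∅) :
    ∃ k n : ℕ, ∀ (P Q : X) (a : ℝ), 2 * (n : ℝ) ≤ dist P Q →
        ¬ ∀ (u : ℝ) (N : X), On P Q u N →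
          dist N (c (a + u)) ≤ ((k : ℝ) + 1) + 1 ∧ ∀ t, ((k : ℝ) + 1) - 1 ≤ dist N (c t) := by
  by_contra hcon
  push Not at hcon
  have hHP : (HP c).Nonempty := by
    refine Pool.Agent.Y954.EL.hlim X hX c hc fun k => ?_
    obtain ⟨σ, h1, h2, h3⟩ := parallel_line hX hc hax hτ ((k : ℝ) + 1) (by positivity) fun n => by
      obtain ⟨P, Q, a, h1, h2⟩ := hcon k n
      exact ⟨P, Q, a, h1, h2⟩
    exact ⟨σ, h1, h2, by linarith⟩
  rw [hno] at hHP
  exact not_nonempty_empty hHP

/-- axes without half-planes are contracting -/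
theorem contract {X : Type u} [MetricSpace X] [ProperSpace X] (hX : CN X)
    {G : Type v} [Group G] [MulAction G X] [IsIsometricSMul G X]
    {g : G} {τ : ℝ} {c : ℝ → X} (hc : Isometry c) (hax : ∀ t, g • c t = c (t + τ)) (hτ : 0 < τ)
    (hno : HP c = ∅) :
    ∃ θ L H₀ : ℝ, 0 < θ ∧ θ ≤ 1 / 2 ∧ 0 < L ∧ 0 < H₀ ∧ ∀ (x y : X) (s t : ℝ), Foot c x s →
      Foot c y t → H₀ ≤ dist x (c s) → dist x y ≤ θ * dist x (c s) → |s - t| ≤ L := by
  classical
  obtain ⟨k, n, hkn⟩ := no_seg hX hc hax hτ hno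
  set h : ℝ := (k : ℝ) + 1 with hh
  have hk0 : (0 : ℝ) ≤ k := Nat.cast_nonneg k
  have hn0 : (0 : ℝ) ≤ n := Nat.cast_nonneg n
  have hh1 : 1 ≤ h := by linarith
  set L : ℝ := 2 * n + 1 with hL
  have hL1 : 1 ≤ L := by linarith
  set Y : ℝ := h + (L + 1) ^ 2 with hY
  have hY1 : 1 ≤ Y := by nlinarith
  refine ⟨1 / (6 * Y), L, 2 * Y, by positivity, ?_, by linarith, by linarith, ?_⟩
  · rw [div_le_div_iff₀ (by positivity) (by norm_num)]
    linarith
  intro x y s t hs ht hH0 hxy
  by_contra hcon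
  push Not at hcon
  choose φ hφ using fun x => foot_exists hX hc x
  have hφs : φ x = s := foot_unique hX hc (hφ x) hs
  have hφt : φ y = t := foot_unique hX hc (hφ y) ht
  have hφc : Continuous φ := by
    refine (LipschitzWith.of_dist_le_mul (K := 1) fun x y => ?_).continuous
    rw [Real.dist_eq]
    simpa using foot_lip hX hc (hφ x) (hφ y)
  obtain ⟨γ, hγ0, hγ1, hγc, hγd⟩ := geod hX x y
  have hcont : ContinuousOn (fun u => |s - φ (γ u)|) (Icc 0 (dist x y)) :=
    (continuousOn_const.sub (hφc.comp_continuousOn hγc)).abs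
  obtain ⟨u, hu, hu2⟩ := intermediate_value_Icc (dist_nonneg (x := x) (y := y)) hcont
    (show L ∈ Icc (|s - φ (γ 0)|) (|s - φ (γ (dist x y))|) by
      rw [hγ0, hγ1, hφs, hφt, sub_self, abs_zero]
      exact ⟨by linarith, hcon.le⟩)
  have hu2' : |s - φ (γ u)| = L := hu2
  set q := γ u with hq
  set b := φ q with hb
  have hqf : Foot c q b := hφ q
  have hd := hγd u hu
  set A := dist x (c s) with hA
  have hA0 : 0 < A := by linarith
  set H : ℝ := A / 2 with hH
  set T : ℝ := A / (6 * Y) with hT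
  have hT' : 1 / (6 * Y) * A = T := by rw [hT]; ring
  rw [hT'] at hxy
  have hT6 : 6 * T * Y = A := by
    rw [hT]
    field_simp
  have hTA : T ≤ A / 2 := by
    have : T * 6 ≤ T * (6 * Y) := mul_le_mul_of_nonneg_left (by linarith) (by positivity)
    have hT0 : 0 ≤ T := by positivity
    nlinarith
  have hxq : dist x q ≤ T := by rw [hd.1]; exact hu.2.trans hxy
  have hHq : H ≤ dist q (c b) := by
    have h1 := foot_min hs b
    have h2 := dist_triangle x q (c b)
    rw [← hA] at h1
    linarith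
  rcases le_total s b with hsb | hsb
  · have hb' : b - s = L := by rw [abs_of_nonpos (by linarith)] at hu2'; linarith
    obtain ⟨P, Q, h1, h2⟩ := rect hX hc (T := T) (H := H) (h := h) (y := Y) hs hqf (by linarith)
      hxq (by linarith) hHq (by linarith) (by rw [hb']) (by nlinarith) (by linarith)
    exact hkn P Q s (by linarith) h2
  · have hb' : s - b = L := by rw [abs_of_nonneg (by linarith)] at hu2'; linarith
    obtain ⟨P, Q, h1, h2⟩ := rect hX hc (T := T) (H := H) (h := h) (y := Y) hqf hs (by linarith)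
      (by rw [dist_comm]; exact hxq) hHq (by linarith) (by linarith) (by rw [hb']) (by nlinarith)
      (by linarith)
    exact hkn P Q b (by linarith) h2

end Pool.Agent.R524.SD
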