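import Pool.Agent.R524.SD.Smooth
import Pool.Agent.R524.GR.Main

/-!
# Rank one elements are separated from their inverses by functions of small gradient (helper524)
-/

set_option autoImplicit false

universe u v

open Metric Set Filter Topology
open Pool.Agent.TH60.FP Pool.Agent.Y34.HB Pool.Agent.Y34.EL

namespace Pool.Agent.R524.SD

theorem exists_fun {X : Type u} [MetricSpace X] [ProperSpace X] (hX : CN X)
    {G : Type v} [Group G] [MulAction G X] [IsIsometricSMul G X]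
    {g : G} {τ : ℝ} {c : ℝ → X} (hc : Isometry c) (hax : ∀ t, g • c t = c (t + τ)) (hτ : 0 < τ)
    (hno : HP c = ∅) (S : Finset G) (o : X) :
    ∃ (f : G → ℝ) (C : ℝ), (∀ h, 0 ≤ f h ∧ f h ≤ 1) ∧
      (∀ h, ∀ s ∈ S, 2 ≤ dist o (h • o) →
        |f (h * s) - f h| ≤ C / (dist o (h • o) * Real.log (dist o (h • o)))) ∧
      Tendsto (fun n : ℕ => f (g ^ n)) atTop (𝓝 1) ∧
      Tendsto (fun n : ℕ => f (g⁻¹ ^ n)) atTop (𝓝 0) ∧
      Tendsto (fun n : ℕ => dist o (g ^ n • o)) atTop atTop := by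
  classical
  choose φ hφ using fun x => foot_exists hX hc x
  obtain ⟨θ, C₁, R₀, hθ, hθ1, hC₁, hosc⟩ := osc hX hc hax hτ hno φ hφ o
  obtain ⟨f, hf0, hfF, hfF', hgrad⟩ := smooth o (FF φ o) (FF_nonneg φ o) θ C₁ R₀ hθ hθ1 hC₁ hosc
  set B : ℝ := ∑ s ∈ S, dist o (s • o) with hB
  have hB0 : 0 ≤ B := Finset.sum_nonneg fun s _ => dist_nonneg
  have hBs : ∀ s ∈ S, dist o (s • o) ≤ B := fun s hs =>
    Finset.single_le_sum (f := fun s => dist o (s • o)) (fun s _ => dist_nonneg) hs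
  obtain ⟨C₂, R₂, hC₂, hR₂, hg2⟩ := hgrad B hB0
  have hf1 : ∀ x, f x ≤ 1 := fun x => (hfF x).trans (FF_le φ o x)
  obtain ⟨R₁, hR₁⟩ := log_small
  set d : ℝ := dist o (c 0) with hd
  have hd0 : 0 ≤ d := dist_nonneg
  -- the orbit
  have horb : ∀ m : ℤ, |φ (g ^ m • o) - m * τ| ≤ d ∧ |m * τ| - 2 * d ≤ dist o (g ^ m • o) ∧
      dist o (g ^ m • o) ≤ |m * τ| + 2 * d := by
    intro m
    have e1 : dist (g ^ m • o) (c (m * τ)) = d := by
      have := axis_zpow hax m 0
      rw [zero_add] at this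
      rw [← this, dist_smul]
    have e2 := foot_lip hX hc (hφ (g ^ m • o)) (foot_self hc (m * τ))
    rw [e1] at e2
    have t1 := dist_triangle o (g ^ m • o) (c (m * τ))
    have t2 := dist_triangle (c 0) o (c (m * τ))
    have t3 := dist_triangle o (c 0) (c (m * τ))
    have t4 := dist_triangle o (c (m * τ)) (g ^ m • o)
    rw [dist_comm (c (m * τ)) (g ^ m • o)] at t4
    rw [line_dist hc, zero_sub, abs_neg] at t2 t3
    rw [dist_comm (c 0) o] at t2
    refine ⟨e2, by linarith, by linarith⟩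
  have hlim : Tendsto (fun n : ℕ => (n : ℝ) * τ) atTop atTop :=
    tendsto_natCast_atTop_atTop.atTop_mul_const hτ
  have hpos : ∀ n : ℕ, |((n : ℤ) : ℝ) * τ| = n * τ := fun n => by
    rw [Int.cast_natCast, abs_of_nonneg (by positivity)]
  have hneg : ∀ n : ℕ, |((-(n : ℤ) : ℤ) : ℝ) * τ| = n * τ := fun n => by
    push_cast
    rw [neg_mul, abs_neg, abs_of_nonneg (by positivity)]
  have hinf : Tendsto (fun n : ℕ => dist o (g ^ n • o)) atTop atTop := by
    refine tendsto_atTop_mono (fun n => ?_) (tendsto_atTop_add_const_right _ (-(2 * d)) hlim)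
    have := (horb n).2.1
    rw [hpos, zpow_natCast] at this
    linarith
  refine ⟨fun h => f (h • o), max C₂ (R₂ * Real.log R₂), fun h => ⟨hf0 _, hf1 _⟩, ?_, ?_, ?_, hinf⟩
  · intro h s hs h2
    set r := dist o (h • o) with hr
    have hlog : 0 < Real.log r := Real.log_pos (by linarith)
    have hrl : 0 < r * Real.log r := by positivity
    by_cases hcase : R₂ ≤ r
    · have h3 := hg2 (h • o) ((h * s) • o) hcase (by rw [mul_smul, dist_smul]; exact hBs s hs)
      rw [abs_sub_comm]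
      exact h3.trans (div_le_div_of_nonneg_right (le_max_left _ _) hrl.le)
    · push Not at hcase
      have h3 : |f ((h * s) • o) - f (h • o)| ≤ 1 := by
        rw [abs_le]
        constructor <;> linarith [hf0 ((h * s) • o), hf1 ((h * s) • o), hf0 (h • o), hf1 (h • o)]
      refine h3.trans ?_
      rw [le_div_iff₀ hrl, one_mul]
      refine le_trans ?_ (le_max_right _ _)
      exact mul_le_mul hcase.le (Real.log_le_log (by linarith) hcase.le) hlog.le (by linarith)
  · have h1 := hinf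
    have h2 : Tendsto (fun n : ℕ => 1 - C₁ / Real.log (dist o (g ^ n • o))) atTop (𝓝 1) := by
      have h3 := (Real.tendsto_log_atTop.comp h1)
      have h4 : Tendsto (fun n : ℕ => C₁ / Real.log (dist o (g ^ n • o))) atTop (𝓝 0) :=
        h3.const_div_atTop C₁
      have h5 := (tendsto_const_nhds (x := (1 : ℝ))).sub h4
      rwa [sub_zero] at h5
    refine tendsto_of_tendsto_of_tendsto_of_le_of_le' h2 tendsto_const_nhds ?_
      (Eventually.of_forall fun n => hf1 _)
    filter_upwards [h1.eventually_ge_atTop (max (max R₀ R₁) (max 2 (24 * d)))] with n hn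
    have a1 : R₀ ≤ dist o (g ^ n • o) := ((le_max_left _ _).trans (le_max_left _ _)).trans hn
    have a2 : R₁ ≤ dist o (g ^ n • o) := ((le_max_right _ _).trans (le_max_left _ _)).trans hn
    have a3 : 2 ≤ dist o (g ^ n • o) := ((le_max_left _ _).trans (le_max_right _ _)).trans hn
    have a4 : 24 * d ≤ dist o (g ^ n • o) :=
      ((le_max_right _ _).trans (le_max_right _ _)).trans hn
    have b1 := hfF' (g ^ n • o) a1
    have b2 := hR₁ _ a2
    obtain ⟨b3, b4, b5⟩ := horb n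
    rw [hpos] at b4 b5
    rw [zpow_natCast] at b3 b4 b5
    rw [Int.cast_natCast] at b3
    have b6 := abs_le.1 b3
    have b7 : FF φ o (g ^ n • o) = 1 := FF_one (Real.log_pos (by linarith)) (by linarith [b6.1])
    rw [b7] at b1
    exact b1
  · have h1 : Tendsto (fun n : ℕ => dist o (g⁻¹ ^ n • o)) atTop atTop := by
      refine tendsto_atTop_mono (fun n => ?_) (tendsto_atTop_add_const_right _ (-(2 * d)) hlim)
      have := (horb (-n)).2.1
      rw [hneg, zpow_neg, zpow_natCast, ← inv_pow] at this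
      linarith
    refine Tendsto.congr' ?_ tendsto_const_nhds
    filter_upwards [h1.eventually_ge_atTop (max 2 (3 * d))] with n hn
    have a3 : 2 ≤ dist o (g⁻¹ ^ n • o) := (le_max_left _ _).trans hn
    have a4 : 3 * d ≤ dist o (g⁻¹ ^ n • o) := (le_max_right _ _).trans hn
    obtain ⟨b3, b4, b5⟩ := horb (-n)
    rw [hneg] at b4 b5
    rw [zpow_neg, zpow_natCast, ← inv_pow] at b3 b4 b5
    push_cast at b3
    have b6 := abs_le.1 b3
    have b7 : FF φ o (g⁻¹ ^ n • o) = 0 := FF_zero (Real.log_pos (by linarith)) (by linarith [b6.2])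
    have b8 := hfF (g⁻¹ ^ n • o)
    rw [b7] at b8
    exact le_antisymm (hf0 _) b8

/-! ### half-planes -/

section Len

variable {G : Type v} [Group G] {l : G → ℝ}

open Pool.Agent.R524.GR

/-- neighbours have close values -/
theorem near_osc (hl : Len l) (S : Finset G) (hS : ∀ s ∈ S, s⁻¹ ∈ S)
    (hgen : Subgroup.closure (S : Set G) = ⊤) (B : ℝ) :
    ∃ L' M' : ℝ, 0 ≤ L' ∧ 0 ≤ M' ∧ ∀ (f : G → ℝ) (ε : ℝ), 0 ≤ ε → ∀ u v : G, l (u⁻¹ * v) ≤ B →
      (∀ w, l u - M' ≤ l w → ∀ s ∈ S, |f (w * s) - f w| ≤ ε) → |f v - f u| ≤ L' * ε := by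
  classical
  choose L M hM hW using word l hl.mul hl.inv S hS hgen
  set F : Finset G := (hl.fin B).toFinset with hF
  set L' : ℕ := ∑ k ∈ F, L k with hL'
  set M' : ℝ := ∑ k ∈ F, M k with hM'
  have hM'0 : 0 ≤ M' := Finset.sum_nonneg fun k _ => hM k
  refine ⟨L', M', Nat.cast_nonneg _, hM'0, fun f ε hε u v huv hgr => ?_⟩
  have hk : u⁻¹ * v ∈ F := by
    rw [hF, Set.Finite.mem_toFinset]
    exact huv
  have h1 : M (u⁻¹ * v) ≤ M' := Finset.single_le_sum (fun k _ => hM k) hk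
  have h2 : L (u⁻¹ * v) ≤ L' := Finset.single_le_sum (f := L) (fun k _ => Nat.zero_le _) hk
  have h3 : Conn (fun w => |l w - l u| ≤ M') S L' u (u * (u⁻¹ * v)) :=
    ((hW (u⁻¹ * v) u).mono fun w hw => le_trans hw h1).mono_n L' h2
  rw [mul_inv_cancel_left] at h3
  obtain ⟨m, y, hm, hy0, hym, hyP, hyS⟩ := h3.path
  have h4 := path_grad S f ε m y hyS fun i hi s hs => hgr (y i) (by
    have := (abs_le.1 (hyP i hi.le)).1
    linarith) s hs
  rw [hy0, hym] at h4
  exact h4.trans (mul_le_mul_of_nonneg_right (by exact_mod_cast hm) hε)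

end Len

/-- values at the two ends of a path far away from `o` -/
theorem seg_osc {X : Type u} [MetricSpace X] {G : Type v} [Group G] [MulAction G X] (hG : Geo X G)
    (o : X) (S : Finset G) (hS : ∀ s ∈ S, s⁻¹ ∈ S) (hgen : Subgroup.closure (S : Set G) = ⊤) (D : ℝ)
    (hD : ∀ x : X, ∃ γ : G, dist (γ • o) x ≤ D) :
    ∃ L' M' : ℝ, 0 ≤ L' ∧ 0 ≤ M' ∧ ∀ (f : G → ℝ) (ε ρ b : ℝ) (p : ℝ → X) (g h : G), 0 ≤ ε → 0 ≤ b →
      (∀ s ∈ Icc 0 b, ∀ t ∈ Icc 0 b, dist (p s) (p t) ≤ |s - t|) →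
      (∀ t ∈ Icc 0 b, ρ ≤ dist o (p t)) → dist (g • o) (p 0) ≤ D → dist (h • o) (p b) ≤ D →
      (∀ w : G, ρ - D - M' ≤ dist o (w • o) → ∀ s ∈ S, |f (w * s) - f w| ≤ ε) →
      |f h - f g| ≤ (b + 2) * (L' * ε) := by
  classical
  have _ := hG.isom
  obtain ⟨L', M', hL', hM', hosc⟩ := near_osc (Pool.Agent.R524.GR.len_geo hG o) S hS hgen
    (2 * D + 1)
  refine ⟨L', M', hL', hM', fun f ε ρ b p g h hε hb hp hρ hg hh hgr => ?_⟩
  choose k hk using fun x => hD x
  have hD0 : 0 ≤ D := dist_nonneg.trans (hk (p 0))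
  have hstep : ∀ (u v : G) (s t : ℝ), s ∈ Icc 0 b → t ∈ Icc 0 b → |s - t| ≤ 1 →
      dist (u • o) (p s) ≤ D → dist (v • o) (p t) ≤ D → |f v - f u| ≤ L' * ε := by
    intro u v s t hs ht hst hu hv
    refine hosc f ε hε u v ?_ fun w hw => hgr w ?_
    · show dist o ((u⁻¹ * v) • o) ≤ 2 * D + 1
      rw [← dist_smul u, ← mul_smul, mul_inv_cancel_left]
      have h1 := dist_triangle (u • o) (p s) (v • o)
      have h2 := dist_triangle (p s) (p t) (v • o)
      have h3 := hp s hs t ht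
      rw [dist_comm (p t) (v • o)] at h2
      linarith
    · have h1 := dist_triangle o (u • o) (p s)
      have h2 := hρ s hs
      linarith
  have key : ∀ n : ℕ, (n : ℝ) ≤ b → |f (k (p n)) - f g| ≤ (n + 1) * (L' * ε) := by
    intro n
    induction n with
    | zero =>
      intro hn
      have := hstep g (k (p (0 : ℕ))) 0 (0 : ℕ) ⟨le_rfl, hb⟩ ⟨by simp, hn⟩ (by simp) hg
        (hk _)
      push_cast at this ⊢
      linarith
    | succ n ih =>
      intro hn
      push_cast at hn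
      have h1 := ih (by linarith)
      have hn0 : (0 : ℝ) ≤ n := Nat.cast_nonneg n
      have h2 := hstep (k (p (n : ℕ))) (k (p (n + 1 : ℕ))) n ((n + 1 : ℕ) : ℝ)
        ⟨hn0, by linarith⟩ ⟨by positivity, by push_cast; linarith⟩
        (by push_cast; simp) (hk _) (hk _)
      have h3 := abs_sub_le (f (k (p (n + 1 : ℕ)))) (f (k (p (n : ℕ)))) (f g)
      push_cast at h2 h3 ⊢
      linarith
  have h1 := key ⌊b⌋₊ (Nat.floor_le hb)
  have h2 := hstep (k (p (⌊b⌋₊ : ℕ))) h (⌊b⌋₊ : ℕ) b ⟨Nat.cast_nonneg _, Nat.floor_le hb⟩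
    ⟨hb, le_rfl⟩ (by
      have h3 := Nat.floor_le hb
      have h4 := (Nat.lt_floor_add_one b).le
      rw [abs_le]
      constructor <;> linarith) (hk _) hh
  have h3 := abs_sub_le (f h) (f (k (p (⌊b⌋₊ : ℕ)))) (f g)
  have h4 : ((⌊b⌋₊ : ℝ) + 1) * (L' * ε) ≤ (b + 1) * (L' * ε) :=
    mul_le_mul_of_nonneg_right (by linarith [Nat.floor_le hb]) (by positivity)
  linarith

/-- gradient `o(1 / l)` in terms of radii -/
theorem small_of {G : Type v} [Group G] {l : G → ℝ} {S : Finset G} (f : G → ℝ)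
    (hf : ∀ s ∈ S, Tendsto (fun g => l g * |f (g * s) - f g|) cofinite (𝓝 0)) (δ : ℝ)
    (hδ : 0 < δ) : ∃ R : ℝ, ∀ s ∈ S, ∀ g : G, R ≤ l g → l g * |f (g * s) - f g| ≤ δ := by
  have h1 : ∀ s ∈ S, ∃ R : ℝ, ∀ g : G, R ≤ l g → l g * |f (g * s) - f g| ≤ δ := by
    intro s hs'
    have h2 := (hf s hs').eventually (Iio_mem_nhds hδ)
    rw [Filter.eventually_cofinite] at h2
    obtain ⟨M, hM⟩ := (h2.image l).bddAbove
    refine ⟨M + 1, fun g hg => ?_⟩
    by_contra hcon
    push Not at hcon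
    have h3 : l g ∈ l '' {x : G | ¬ l x * |f (x * s) - f x| ∈ Iio δ} :=
      ⟨g, by simp only [mem_Iio, not_lt, Set.mem_ofPred_eq]; exact hcon.le, rfl⟩
    have := hM h3
    linarith
  choose! R hR using h1
  obtain ⟨M, hM⟩ := ((S : Set G).toFinite.image R).bddAbove
  exact ⟨M, fun s hs' g hg => hR s hs' g ((hM ⟨s, hs', rfl⟩).trans hg)⟩

/-- functions of small gradient do not separate the ends of an axis which bounds a half-plane -/
theorem half_small {X : Type u} [MetricSpace X] {G : Type v} [Group G] [MulAction G X]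
    (hG : Geo X G) (o : X) (S : Finset G) (hS : ∀ s ∈ S, s⁻¹ ∈ S)
    (hgen : Subgroup.closure (S : Set G) = ⊤) {g : G} {τ : ℝ} {c : ℝ → X}
    (hax : ∀ t, g • c t = c (t + τ)) (hτ : 0 < τ) (H : ℝ × NNReal → X)
    (hH : ∀ p q : ℝ × NNReal, dist (H p) (H q) ^ 2 = (p.1 - q.1) ^ 2 + ((p.2 : ℝ) - q.2) ^ 2)
    (hH0 : ∀ t : ℝ, H (t, 0) = c t) (f : G → ℝ)
    (hf : ∀ s ∈ S, Tendsto (fun g : G => dist o (g • o) * |f (g * s) - f g|) cofinite (𝓝 0)) :
    Tendsto (fun n : ℕ => f (g ^ n) - f (g⁻¹ ^ n)) atTop (𝓝 0) := by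
  classical
  have _ := hG.isom
  obtain ⟨D₀, hD₀, hnear⟩ := Pool.Agent.Y914.EL.near hG o
  set d : ℝ := dist o (c 0) with hd
  have hd0 : 0 ≤ d := dist_nonneg
  set D : ℝ := D₀ + d with hD
  have hnear' : ∀ x : X, ∃ γ : G, dist (γ • o) x ≤ D := fun x => by
    obtain ⟨γ, h⟩ := hnear x
    exact ⟨γ, by linarith⟩
  obtain ⟨L, M, hL, hM, hseg⟩ := seg_osc hG o S hS hgen D hnear'
  rw [Metric.tendsto_atTop]
  intro ε₀ hε₀
  set δ : ℝ := ε₀ / (40 * (L + 1)) with hδ
  have hδ0 : 0 < δ := by positivity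
  obtain ⟨R, hR⟩ := small_of (l := fun g : G => dist o (g • o)) f hf δ hδ0
  obtain ⟨N, hN⟩ := exists_nat_ge ((2 * (|R| + d + D + M + 3)) / τ)
  refine ⟨N, fun n hn => ?_⟩
  set r : ℝ := n * τ with hr
  have hrN : 2 * (|R| + d + D + M + 3) ≤ r := by
    rw [div_le_iff₀ hτ] at hN
    have : (N : ℝ) ≤ n := by exact_mod_cast hn
    exact hN.trans (mul_le_mul_of_nonneg_right this hτ.le)
  have hRa := le_abs_self R
  have hRb := abs_nonneg R
  have hr0 : 0 < r := by linarith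
  set ε : ℝ := 2 * δ / r with hε
  have hε0 : 0 ≤ ε := by positivity
  have hgr : ∀ w : G, r - d - D - M ≤ dist o (w • o) → ∀ s ∈ S, |f (w * s) - f w| ≤ ε := by
    intro w hw s hs
    have h1 := hR s hs w (show R ≤ dist o (w • o) by linarith)
    have h2 : r / 2 ≤ dist o (w • o) := by linarith
    have h3 : r / 2 * |f (w * s) - f w| ≤ δ :=
      (mul_le_mul_of_nonneg_right h2 (abs_nonneg _)).trans h1
    rw [hε, le_div_iff₀ hr0]
    linarith
  have hdist : ∀ a b x y : ℝ, 0 ≤ x → 0 ≤ y →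
      dist (H (a, x.toNNReal)) (H (b, y.toNNReal)) ^ 2 = (a - b) ^ 2 + (x - y) ^ 2 := by
    intro a b x y hx hy
    rw [hH, Real.coe_toNNReal x hx, Real.coe_toNNReal y hy]
  have hfar : ∀ a x : ℝ, 0 ≤ x → r ^ 2 ≤ a ^ 2 + x ^ 2 → r - d ≤ dist o (H (a, x.toNNReal)) := by
    intro a x hx h
    have h1 := hdist a 0 x 0 hx le_rfl
    rw [sub_zero, sub_zero, Real.toNNReal_zero, hH0] at h1
    rw [← h1] at h
    have h2 := (pow_le_pow_iff_left₀ hr0.le dist_nonneg two_ne_zero).1 h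
    have h3 := dist_triangle (H (a, x.toNNReal)) o (c 0)
    rw [dist_comm (H (a, x.toNNReal)) o] at h3
    linarith
  have hsq : ∀ (x : ℝ) (p q : X), dist p q ^ 2 ≤ x ^ 2 → dist p q ≤ |x| := by
    intro x p q h
    rw [← sq_abs x] at h
    exact (pow_le_pow_iff_left₀ dist_nonneg (abs_nonneg _) two_ne_zero).1 h
  have horb : ∀ m : ℤ, dist (g ^ m • o) (c (m * τ)) ≤ D := by
    intro m
    have := axis_zpow hax m 0
    rw [zero_add] at this
    rw [← this, dist_smul]
    linarith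
  have horb1 : dist (g ^ n • o) (H (r, (0 : ℝ).toNNReal)) ≤ D := by
    have := horb n
    rw [Real.toNNReal_zero, hH0]
    rwa [zpow_natCast, Int.cast_natCast] at this
  have horb2 : dist (g⁻¹ ^ n • o) (H (-r, (r - r).toNNReal)) ≤ D := by
    have := horb (-n)
    rw [sub_self, Real.toNNReal_zero, hH0]
    rw [zpow_neg, zpow_natCast, ← inv_pow] at this
    push_cast at this
    rwa [neg_mul] at this
  obtain ⟨k₁, hk₁⟩ := hnear' (H (r, r.toNNReal))
  obtain ⟨k₂, hk₂⟩ := hnear' (H (-r, r.toNNReal))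
  have s1 := hseg f ε (r - d) r (fun t => H (r, t.toNNReal)) (g ^ n) k₁ hε0 hr0.le
    (fun s hs t ht => hsq _ _ _ (by rw [hdist _ _ _ _ hs.1 ht.1, sub_self]; linarith))
    (fun t ht => hfar _ _ ht.1 (by nlinarith [sq_nonneg t])) horb1 hk₁ hgr
  have s2 := hseg f ε (r - d) (2 * r) (fun t => H (r - t, r.toNNReal)) k₁ k₂ hε0 (by linarith)
    (fun s hs t ht => hsq _ _ _ (by
      rw [hdist _ _ _ _ hr0.le hr0.le, sub_self]
      nlinarith))
    (fun t ht => hfar _ _ hr0.le (by nlinarith [sq_nonneg (r - t)]))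
    (by show dist (k₁ • o) (H (r - 0, r.toNNReal)) ≤ D; rw [sub_zero]; exact hk₁)
    (by
      show dist (k₂ • o) (H (r - 2 * r, r.toNNReal)) ≤ D
      rw [show r - 2 * r = -r by ring]
      exact hk₂) hgr
  have s3 := hseg f ε (r - d) r (fun t => H (-r, (r - t).toNNReal)) k₂ (g⁻¹ ^ n) hε0 hr0.le
    (fun s hs t ht => hsq _ _ _ (by
      rw [hdist _ _ _ _ (by linarith [hs.2]) (by linarith [ht.2]), sub_self]
      nlinarith))
    (fun t ht => hfar _ _ (by linarith [ht.2]) (by nlinarith [sq_nonneg (r - t)]))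
    (by show dist (k₂ • o) (H (-r, (r - 0).toNNReal)) ≤ D; rw [sub_zero]; exact hk₂)
    horb2 hgr
  rw [Real.dist_eq, sub_zero]
  have t1 : |f (g ^ n) - f (g⁻¹ ^ n)| ≤ (4 * r + 6) * (L * ε) := by
    have a1 := abs_le.1 s1
    have a2 := abs_le.1 s2
    have a3 := abs_le.1 s3
    have e : (4 * r + 6) * (L * ε) = (r + 2) * (L * ε) + (2 * r + 2) * (L * ε) +
      (r + 2) * (L * ε) := by ring
    rw [e, abs_le]
    constructor <;> linarith [a1.1, a1.2, a2.1, a2.2, a3.1, a3.2]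
  refine t1.trans_lt ?_
  have t2 : (4 * r + 6) * (L * ε) ≤ (10 * r) * (L * ε) :=
    mul_le_mul_of_nonneg_right (by linarith) (by positivity)
  have t3 : (10 * r) * (L * ε) = 20 * L * δ := by
    rw [hε]
    field_simp
    ring
  have t4 : 20 * L * δ ≤ 20 * (L + 1) * δ := by nlinarith
  have t5 : 20 * (L + 1) * δ = ε₀ / 2 := by
    rw [hδ]
    field_simp
    ring
  linarith

/-- gradient `O(1 / (l log l))` is gradient `o(1 / l)` -/
theorem small_grad {G : Type v} [Group G] {l : G → ℝ} (hl : Pool.Agent.R524.GR.Len l)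
    {S : Finset G} (f : G → ℝ) (C : ℝ)
    (hf : ∀ h, ∀ s ∈ S, 2 ≤ l h → |f (h * s) - f h| ≤ C / (l h * Real.log (l h))) :
    ∀ s ∈ S, Tendsto (fun h => l h * |f (h * s) - f h|) cofinite (𝓝 0) := by
  intro s hs
  have hinf : Tendsto l cofinite atTop := by
    rw [Filter.tendsto_atTop]
    intro R
    rw [Filter.eventually_cofinite]
    exact (hl.fin R).subset fun g hg => (not_le.1 hg).le
  have h1 : Tendsto (fun h => C / Real.log (l h)) cofinite (𝓝 0) :=
    (Real.tendsto_log_atTop.comp hinf).const_div_atTop C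
  refine tendsto_of_tendsto_of_tendsto_of_le_of_le' tendsto_const_nhds h1
    (Eventually.of_forall fun h => mul_nonneg (hl.nonneg h) (abs_nonneg _)) ?_
  filter_upwards [hinf.eventually_ge_atTop 2] with h hh
  have h2 : 0 < l h := by linarith
  have h3 : 0 < Real.log (l h) := Real.log_pos (by linarith)
  calc l h * |f (h * s) - f h| ≤ l h * (C / (l h * Real.log (l h))) :=
        mul_le_mul_of_nonneg_left (hf h s hs hh) h2.le
    _ = C / Real.log (l h) := by field_simp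

end Pool.Agent.R524.SD
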