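import Pool.Agent.Y34.EL.All

/-!
# Projections to lines in CAT(0) spaces (helper524)
-/

set_option autoImplicit false

universe u v

open Metric Set Filter Topology
open Pool.Agent.TH60.FP Pool.Agent.Y34.HB Pool.Agent.Y34.EL

namespace Pool.Agent.R524.SD

variable {X : Type u} [MetricSpace X]

/-- `c s` is the projection of `x` to the line `c` -/
def Foot (c : ℝ → X) (x : X) (s : ℝ) : Prop :=
  ∀ t, dist x (c s) ^ 2 + (t - s) ^ 2 ≤ dist x (c t) ^ 2

theorem line_dist {c : ℝ → X} (hc : Isometry c) (s t : ℝ) : dist (c s) (c t) = |s - t| := by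
  rw [hc.dist_eq, Real.dist_eq]

theorem line_on {c : ℝ → X} (hc : Isometry c) {s t ε : ℝ} (h0 : 0 ≤ ε) (h1 : ε ≤ |t - s|) :
    ∃ u, |u - s| = ε ∧ On (c s) (c t) ε (c u) := by
  rcases le_total s t with h | h
  · rw [abs_of_nonneg (by linarith)] at h1
    refine ⟨s + ε, by rw [add_sub_cancel_left, abs_of_nonneg h0], ?_, ?_⟩
    · rw [line_dist hc, abs_sub_comm, add_sub_cancel_left, abs_of_nonneg h0]
    · rw [line_dist hc, line_dist hc, abs_sub_comm, abs_of_nonneg (by linarith),
        abs_sub_comm, abs_of_nonneg (by linarith)]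
      ring
  · rw [abs_of_nonpos (by linarith)] at h1
    refine ⟨s - ε, ?_, ?_, ?_⟩
    · rw [show s - ε - s = -ε by ring, abs_neg, abs_of_nonneg h0]
    · rw [line_dist hc, show s - (s - ε) = ε by ring, abs_of_nonneg h0]
    · rw [line_dist hc, line_dist hc, abs_of_nonneg (by linarith), abs_of_nonneg (by linarith)]
      ring

theorem foot_of_min [ProperSpace X] (hX : CN X) {c : ℝ → X} (hc : Isometry c) {x : X} {s : ℝ}
    (h : ∀ t, dist x (c s) ≤ dist x (c t)) : Foot c x s := by
  obtain ⟨-, -, hst⟩ := t_stew X hX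
  intro t
  rcases eq_or_ne t s with rfl | hne
  · simp
  have hd : 0 < |t - s| := abs_pos.2 (sub_ne_zero.2 hne)
  have hsq : (t - s) ^ 2 = |t - s| ^ 2 := (sq_abs _).symm
  rw [hsq]
  refine le_of_forall_pos_le_add fun ε' hε' => ?_
  set d := |t - s| with hdd
  set ε := min d (ε' / d) with hε
  have hε0 : 0 < ε := lt_min hd (div_pos hε' hd)
  have hε1 : ε ≤ d := min_le_left _ _
  have hε2 : ε * d ≤ ε' := by
    have : ε ≤ ε' / d := min_le_right _ _
    rwa [le_div_iff₀ hd] at this
  obtain ⟨u, -, hu⟩ := line_on hc (s := s) (t := t) hε0.le hε1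
  have h1 := hst (c s) (c t) ε (c u) hu x
  have h2 : dist (c s) (c t) = d := by rw [line_dist hc, abs_sub_comm]
  rw [h2] at h1
  have h3 : dist x (c s) ^ 2 ≤ dist x (c u) ^ 2 := pow_le_pow_left₀ dist_nonneg (h u) 2
  have h4 : d * dist x (c s) ^ 2 ≤ d * dist x (c u) ^ 2 := mul_le_mul_of_nonneg_left h3 hd.le
  have h5 : ε * (dist x (c s) ^ 2 + d ^ 2) ≤ ε * (dist x (c t) ^ 2 + ε * d) := by nlinarith
  have h6 := le_of_mul_le_mul_left h5 hε0
  linarith

theorem foot_min {c : ℝ → X} {x : X} {s : ℝ} (h : Foot c x s) (t : ℝ) :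
    dist x (c s) ≤ dist x (c t) := by
  refine (pow_le_pow_iff_left₀ dist_nonneg dist_nonneg two_ne_zero).1 ?_
  nlinarith [h t, sq_nonneg (t - s)]

theorem foot_exists [ProperSpace X] (hX : CN X) {c : ℝ → X} (hc : Isometry c) (x : X) :
    ∃ s, Foot c x s := by
  set K : ℝ := 2 * dist x (c 0) + 1 with hK
  have hd := dist_nonneg (x := x) (y := c 0)
  have hcont : Continuous fun t => dist x (c t) := continuous_const.dist hc.continuous
  obtain ⟨s, -, hs⟩ := (isCompact_Icc (a := -K) (b := K)).exists_isMinOn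
    ⟨0, by constructor <;> linarith⟩ hcont.continuousOn
  refine ⟨s, foot_of_min hX hc fun t => ?_⟩
  by_cases ht : t ∈ Icc (-K) K
  · exact hs ht
  · have h0 : dist x (c s) ≤ dist x (c 0) := hs (show (0 : ℝ) ∈ Icc (-K) K by
      constructor <;> linarith)
    have h1 : K ≤ |t| := by
      by_contra hcon
      push Not at hcon
      rw [abs_lt] at hcon
      exact ht ⟨hcon.1.le, hcon.2.le⟩
    have h2 := dist_triangle (c t) x (c 0)
    rw [line_dist hc, sub_zero, dist_comm (c t) x] at h2
    linarith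

/-- the sum of the squares of the diagonals -/
theorem quad [ProperSpace X] (hX : CN X) (a b c d : X) :
    dist a c ^ 2 + dist b d ^ 2 ≤ dist a b ^ 2 + dist b c ^ 2 + dist c d ^ 2 + dist d a ^ 2 := by
  obtain ⟨m, hm⟩ := hX a c
  have h1 := hm b
  have h2 := hm d
  have h3 := dist_triangle b m d
  rw [dist_comm m d] at h3
  have h4 : dist b d ^ 2 ≤ 2 * dist b m ^ 2 + 2 * dist d m ^ 2 := by
    have h5 : dist b d ^ 2 ≤ (dist b m + dist d m) ^ 2 := pow_le_pow_left₀ dist_nonneg h3 2
    nlinarith [sq_nonneg (dist b m - dist d m)]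
  rw [dist_comm b a] at h1
  rw [dist_comm d c] at h2
  nlinarith

theorem foot_lip [ProperSpace X] (hX : CN X) {c : ℝ → X} (hc : Isometry c) {x y : X} {s t : ℝ}
    (hx : Foot c x s) (hy : Foot c y t) : |s - t| ≤ dist x y := by
  have h1 := hx t
  have h2 := hy s
  have h3 := quad hX x y (c t) (c s)
  rw [line_dist hc, sq_abs, dist_comm (c s) x] at h3
  have h4 : |s - t| ^ 2 ≤ dist x y ^ 2 := by
    rw [sq_abs]
    nlinarith
  exact (pow_le_pow_iff_left₀ (abs_nonneg _) dist_nonneg two_ne_zero).1 h4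

theorem foot_self {c : ℝ → X} (hc : Isometry c) (s : ℝ) : Foot c (c s) s := by
  intro t
  rw [dist_self, line_dist hc, sq_abs]
  nlinarith

/-- points of the segment from a point to its projection -/
theorem foot_seg [ProperSpace X] (hX : CN X) {c : ℝ → X} (hc : Isometry c) {p P : X} {a y : ℝ}
    (hp : Foot c p a) (hP : On (c a) p y P) : Foot c P a := by
  refine foot_of_min hX hc fun t => ?_
  have h1 := foot_min hp t
  have h2 := dist_triangle p P (c t)
  have h3 := hP.2
  have h4 := hP.1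
  rw [dist_comm P p, dist_comm (c a) p] at h3
  rw [dist_comm P (c a), h4]
  linarith

end Pool.Agent.R524.SD
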