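import Pool.Agent.R524.SD.Rect

/-!
# Lines at large distance from an axis (helper524)
-/

set_option autoImplicit false

universe u v

open Metric Set Filter Topology
open Pool.Agent.TH60.FP Pool.Agent.Y34.HB Pool.Agent.Y34.EL
open Pool.Agent.Y901.EL (on_dist on_restrict on_symm on_nonneg on_le)

namespace Pool.Agent.R524.SD

theorem axis_zpow {X : Type u} [MetricSpace X] {G : Type v} [Group G] [MulAction G X]
    {g : G} {τ : ℝ} {c : ℝ → X} (hax : ∀ t, g • c t = c (t + τ)) (m : ℤ) (t : ℝ) :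
    g ^ m • c t = c (t + m * τ) := by
  have hinv : ∀ t, g⁻¹ • c t = c (t - τ) := by
    intro t
    rw [inv_smul_eq_iff, hax]
    congr 1
    ring
  induction m using Int.induction_on generalizing t with
  | zero => simp
  | succ m ih =>
    rw [zpow_add_one, mul_smul, hax, ih]
    congr 1
    push_cast
    ring
  | pred m ih =>
    rw [zpow_sub_one, mul_smul, hinv, ih]
    congr 1
    push_cast
    ring

/-- limits of recentred segments -/
theorem parallel_line {X : Type u} [MetricSpace X] [ProperSpace X] (hX : CN X)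
    {G : Type v} [Group G] [MulAction G X] [IsIsometricSMul G X]
    {g : G} {τ : ℝ} {c : ℝ → X} (hc : Isometry c) (hax : ∀ t, g • c t = c (t + τ)) (hτ : 0 < τ)
    (h : ℝ) (h0 : 0 < h)
    (H : ∀ n : ℕ, ∃ (P Q : X) (a : ℝ), 2 * (n : ℝ) ≤ dist P Q ∧ ∀ (u : ℝ) (N : X), On P Q u N →
      dist N (c (a + u)) ≤ h + 1 ∧ ∀ t, h - 1 ≤ dist N (c t)) :
    ∃ σ : ℝ → X, Isometry σ ∧ Par c σ ∧ h - 1 ≤ DD c σ := by
  classical
  obtain ⟨hex, huniq, hst⟩ := t_stew X hX
  choose P Q a hPQ hN using H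
  set x : ℕ → ℝ := fun n => a n + dist (P n) (Q n) / 2 with hx
  set m : ℕ → ℤ := fun n => -⌊x n / τ⌋ with hm
  have hxm : ∀ n, 0 ≤ x n + m n * τ ∧ x n + m n * τ ≤ τ := by
    intro n
    have h1 := Int.floor_le (x n / τ)
    have h2 := (Int.lt_floor_add_one (x n / τ)).le
    rw [le_div_iff₀ hτ] at h1
    rw [div_le_iff₀ hτ] at h2
    simp only [hm]
    push_cast
    constructor <;> linarith
  have hy : ∀ (n : ℕ) (s : ℝ), ∃ z : X, dist z (c s) ≤ h + 1 + τ ∧
      (|s| ≤ n → ∃ N, On (P n) (Q n) (dist (P n) (Q n) / 2 + s) N ∧ z = g ^ (m n) • N) := by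
    intro n s
    by_cases hs : |s| ≤ n
    · have hs' := abs_le.1 hs
      have h2n := hPQ n
      obtain ⟨N, hN'⟩ := hex (P n) (Q n) (dist (P n) (Q n) / 2 + s) (by linarith [hs'.1])
        (by linarith [hs'.2])
      refine ⟨g ^ (m n) • N, ?_, fun _ => ⟨N, hN', rfl⟩⟩
      have h1 := (hN n _ N hN').1
      have e1 : a n + (dist (P n) (Q n) / 2 + s) = x n + s := by simp only [hx]; ring
      rw [e1] at h1
      have h2 : dist (g ^ (m n) • N) (g ^ (m n) • c (x n + s)) ≤ h + 1 := by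
        rw [dist_smul]; exact h1
      rw [axis_zpow hax] at h2
      have h3 : dist (c (x n + s + m n * τ)) (c s) ≤ τ := by
        rw [line_dist hc]
        have := hxm n
        rw [abs_le]
        constructor <;> linarith
      exact (dist_triangle _ _ _).trans (add_le_add h2 h3)
    · refine ⟨c s, by rw [dist_self]; linarith, fun h => absurd h hs⟩
  choose y hy1 hy2 using hy
  have hlim : ∀ s : ℝ, ∃ z : X, Tendsto (fun n => y n s) (hyperfilter ℕ : Filter ℕ) (𝓝 z) := by
    intro s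
    have hcpt : IsCompact (closedBall (c s) (h + 1 + τ)) := isCompact_closedBall _ _
    obtain ⟨z, -, hz⟩ := hcpt.ultrafilter_le_nhds ((hyperfilter ℕ).map (fun n => y n s)) (by
      rw [le_principal_iff]
      show (fun n => y n s) ⁻¹' (closedBall (c s) (h + 1 + τ)) ∈ hyperfilter ℕ
      refine mem_of_superset univ_mem fun n _ => ?_
      show y n s ∈ closedBall (c s) (h + 1 + τ)
      rw [mem_closedBall]
      exact hy1 n s)
    exact ⟨z, hz⟩
  choose σ hσ using hlim
  have hev : ∀ s : ℝ, ∀ᶠ n : ℕ in (hyperfilter ℕ : Filter ℕ), |s| ≤ (n : ℝ) := by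
    intro s
    have h1 : Tendsto (fun n : ℕ => (n : ℝ)) (hyperfilter ℕ : Filter ℕ) atTop :=
      tendsto_natCast_atTop_atTop.mono_left Nat.hyperfilter_le_atTop
    exact h1.eventually (eventually_ge_atTop _)
  refine ⟨σ, ?_, ⟨h + 1 + τ, fun t => ?_⟩, ?_⟩
  · refine Isometry.of_dist_eq fun s t => ?_
    have h1 : Tendsto (fun n => dist (y n s) (y n t)) (hyperfilter ℕ : Filter ℕ)
        (𝓝 (dist (σ s) (σ t))) := (hσ s).dist (hσ t)
    have h2 : Tendsto (fun n => dist (y n s) (y n t)) (hyperfilter ℕ : Filter ℕ)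
        (𝓝 (dist s t)) := by
      refine Tendsto.congr' ?_ tendsto_const_nhds
      filter_upwards [hev s, hev t] with n hn1 hn2
      obtain ⟨N1, hN1, e1⟩ := hy2 n s hn1
      obtain ⟨N2, hN2, e2⟩ := hy2 n t hn2
      rw [e1, e2, dist_smul, on_dist t_stew hX hN1 hN2, Real.dist_eq]
      congr 1
      ring
    exact tendsto_nhds_unique h1 h2
  · have h1 : Tendsto (fun n => dist (y n t) (c t)) (hyperfilter ℕ : Filter ℕ)
        (𝓝 (dist (σ t) (c t))) := (hσ t).dist tendsto_const_nhds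
    rw [dist_comm]
    exact le_of_tendsto' h1 fun n => hy1 n t
  · rw [DD, le_infDist (range_nonempty σ)]
    rintro z ⟨s, rfl⟩
    have h1 : Tendsto (fun n => dist (y n s) (c 0)) (hyperfilter ℕ : Filter ℕ)
        (𝓝 (dist (σ s) (c 0))) := (hσ s).dist tendsto_const_nhds
    rw [dist_comm]
    refine ge_of_tendsto h1 ?_
    filter_upwards [hev s] with n hn
    obtain ⟨N, hN', e⟩ := hy2 n s hn
    rw [e]
    have h2 : c 0 = g ^ (m n) • c (0 - m n * τ) := by
      rw [axis_zpow hax]
      congr 1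
      ring
    rw [h2, dist_smul]
    exact (hN n _ N hN').2 _

end Pool.Agent.R524.SD
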