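import Pool.Agent.R524.SD.Contract

/-!
# The truncated coordinate of the projection to a contracting axis (helper524)
-/

set_option autoImplicit false

universe u v

open Metric Set Filter Topology
open Pool.Agent.TH60.FP Pool.Agent.Y34.HB Pool.Agent.Y34.EL
open Pool.Agent.Y901.EL (on_dist on_restrict on_symm on_nonneg on_le)

namespace Pool.Agent.R524.SD

/-- the coordinate of the projection divided by `log |x|`, truncated to `[0, 1]` -/
noncomputable def FF {X : Type u} [MetricSpace X] (φ : X → ℝ) (o x : X) : ℝ :=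
  max 0 (min 1 (φ x / Real.log (dist o x)))

theorem FF_nonneg {X : Type u} [MetricSpace X] (φ : X → ℝ) (o x : X) : 0 ≤ FF φ o x :=
  le_max_left _ _

theorem FF_le {X : Type u} [MetricSpace X] (φ : X → ℝ) (o x : X) : FF φ o x ≤ 1 :=
  max_le zero_le_one (min_le_left _ _)

theorem clamp (a b : ℝ) : |max 0 (min 1 a) - max 0 (min 1 b)| ≤ |a - b| := by
  have h1 := abs_max_sub_max_le_max 0 (min 1 a) 0 (min 1 b)
  have h2 := abs_min_sub_min_le_max 1 a 1 b
  rw [sub_self, abs_zero] at h1 h2
  rw [max_eq_right (abs_nonneg (min 1 a - min 1 b))] at h1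
  rw [max_eq_right (abs_nonneg (a - b))] at h2
  exact h1.trans h2

theorem FF_one {X : Type u} [MetricSpace X] {φ : X → ℝ} {o x : X} (h0 : 0 < Real.log (dist o x))
    (h : Real.log (dist o x) ≤ φ x) : FF φ o x = 1 := by
  have h1 : 1 ≤ φ x / Real.log (dist o x) := by rwa [le_div_iff₀ h0, one_mul]
  rw [FF, min_eq_left h1, max_eq_right zero_le_one]

theorem FF_zero {X : Type u} [MetricSpace X] {φ : X → ℝ} {o x : X} (h0 : 0 < Real.log (dist o x))
    (h : φ x ≤ 0) : FF φ o x = 0 := by
  have h1 : φ x / Real.log (dist o x) ≤ 0 := div_nonpos_of_nonpos_of_nonneg h h0.le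
  rw [FF, min_eq_right (by linarith), max_eq_left h1]

theorem log_near {r r' : ℝ} (hr : 0 < r) (h1 : r / 2 ≤ r') (h2 : r' ≤ 2 * r) :
    |Real.log r' - Real.log r| ≤ 1 := by
  have hl2 : Real.log 2 ≤ 1 := by
    have := Real.log_two_lt_d9
    linarith
  have hr' : 0 < r' := by linarith
  have e1 : Real.log r' ≤ Real.log 2 + Real.log r := by
    rw [← Real.log_mul (by norm_num) hr.ne']
    exact Real.log_le_log hr' h2
  have e2 : Real.log r ≤ Real.log 2 + Real.log r' := by
    rw [← Real.log_mul (by norm_num) hr'.ne']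
    exact Real.log_le_log hr (by linarith)
  rw [abs_le]
  constructor <;> linarith

theorem log_small : ∃ R₁ : ℝ, ∀ r : ℝ, R₁ ≤ r → 8 * Real.log r ≤ r := by
  have h := Real.isLittleO_log_id_atTop.bound (show (0 : ℝ) < 1 / 8 by norm_num)
  obtain ⟨R, hR⟩ := eventually_atTop.1 h
  refine ⟨max R 1, fun r hr => ?_⟩
  have h1 := hR r ((le_max_left _ _).trans hr)
  have hr1 : 1 ≤ r := (le_max_right _ _).trans hr
  rw [id, Real.norm_eq_abs, Real.norm_eq_abs, abs_of_nonneg (Real.log_nonneg hr1),
    abs_of_nonneg (by linarith)] at h1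
  linarith

theorem osc {X : Type u} [MetricSpace X] [ProperSpace X] (hX : CN X)
    {G : Type v} [Group G] [MulAction G X] [IsIsometricSMul G X]
    {g : G} {τ : ℝ} {c : ℝ → X} (hc : Isometry c) (hax : ∀ t, g • c t = c (t + τ)) (hτ : 0 < τ)
    (hno : HP c = ∅) (φ : X → ℝ) (hφ : ∀ x, Foot c x (φ x)) (o : X) :
    ∃ θ C R₀ : ℝ, 0 < θ ∧ θ ≤ 1 / 8 ∧ 0 < C ∧ ∀ x y : X, R₀ ≤ dist o x →
      dist x y ≤ θ * dist o x → |FF φ o x - FF φ o y| ≤ C / Real.log (dist o x) := by
  obtain ⟨θ₀, L, H₀, hθ0, hθ1, hL, hH₀, hcon⟩ := contract hX hc hax hτ hno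
  obtain ⟨R₁, hR₁⟩ := log_small
  set d : ℝ := dist o (c 0) with hd
  have hd0 : 0 ≤ d := dist_nonneg
  set R₀ : ℝ := max (max (2 * R₁) (8 * d)) (max (4 * H₀) (Real.exp 2)) with hR₀
  have a1 : 2 * R₁ ≤ R₀ := (le_max_left _ _).trans (le_max_left _ _)
  have a2 : 8 * d ≤ R₀ := (le_max_right _ _).trans (le_max_left _ _)
  have a3 : 4 * H₀ ≤ R₀ := (le_max_left _ _).trans (le_max_right _ _)
  have a4 : Real.exp 2 ≤ R₀ := (le_max_right _ _).trans (le_max_right _ _)
  have hφc : Continuous φ := by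
    refine (LipschitzWith.of_dist_le_mul (K := 1) fun x y => ?_).continuous
    rw [Real.dist_eq]
    simpa using foot_lip hX hc (hφ x) (hφ y)
  refine ⟨θ₀ / 4, 6 + 5 * L, R₀, by linarith, by linarith, by linarith, fun x y hx hxy => ?_⟩
  have hx0 : 0 < dist o x := (Real.exp_pos 2).trans_le (a4.trans hx)
  set r := dist o x with hr
  have hθr : θ₀ / 4 * r ≤ r / 8 := by nlinarith
  have hyx : |dist o y - r| ≤ r / 8 := by
    have h1 := dist_triangle o x y
    have h2 := dist_triangle o y x
    rw [dist_comm y x] at h2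
    rw [abs_le]
    constructor <;> linarith
  have hyx' := abs_le.1 hyx
  have hA2 : 2 ≤ Real.log r := by
    rw [Real.le_log_iff_exp_le hx0]
    exact a4.trans hx
  set A := Real.log r with hA
  have hAB := log_near hx0 (show r / 2 ≤ dist o y by linarith [hyx'.1])
    (show dist o y ≤ 2 * r by linarith [hyx'.2])
  set B := Real.log (dist o y) with hB
  have hAB' := abs_le.1 hAB
  have hB1 : A / 2 ≤ B := by linarith [hAB'.1]
  have hB0 : 0 < B := by linarith
  -- a point near the middle of the region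
  have key : ∀ z : X, dist x z ≤ dist x y → dist z y ≤ dist x y →
      |φ z| ≤ 2 * Real.log (dist o z) → |FF φ o x - FF φ o y| ≤ (6 + 5 * L) / A := by
    intro z hz1 hz2 hz3
    have hzr : |dist o z - r| ≤ r / 8 := by
      have h1 := dist_triangle o x z
      have h2 := dist_triangle o z x
      rw [dist_comm z x] at h2
      rw [abs_le]
      constructor <;> linarith
    have hzr' := abs_le.1 hzr
    have hlz := abs_le.1 (log_near hx0 (show r / 2 ≤ dist o z by linarith [hzr'.1])
      (show dist o z ≤ 2 * r by linarith [hzr'.2]))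
    have h8 := hR₁ (dist o z) (by linarith [hzr'.1])
    have hheight : dist o z / 2 ≤ dist z (c (φ z)) := by
      have h1 := dist_triangle o (c (φ z)) z
      have h2 := dist_triangle o (c 0) (c (φ z))
      rw [line_dist hc, zero_sub, abs_neg, ← hd] at h2
      rw [dist_comm (c (φ z)) z] at h1
      linarith [hzr'.1]
    have hnear : ∀ w : X, dist z w ≤ dist x y → |φ z - φ w| ≤ L := by
      intro w hw
      refine hcon z w _ _ (hφ z) (hφ w) (by linarith [hzr'.1]) ?_
      have h1 : θ₀ * (dist o z / 2) ≤ θ₀ * dist z (c (φ z)) :=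
        mul_le_mul_of_nonneg_left hheight hθ0.le
      have h2 : θ₀ / 4 * r ≤ θ₀ * (dist o z / 2) := by
        have : θ₀ / 4 * r = θ₀ * (r / 4) := by ring
        rw [this]
        exact mul_le_mul_of_nonneg_left (by linarith [hzr'.1]) hθ0.le
      linarith
    have n1 := abs_le.1 (hnear x (by rw [dist_comm]; exact hz1))
    have n2 := abs_le.1 (hnear y hz2)
    have n3 := abs_le.1 hz3
    have hfx : |φ x| ≤ 2 * A + 2 + L := by
      rw [abs_le]
      constructor <;> linarith [n1.1, n1.2, n3.1, n3.2, hlz.2]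
    have hfxy : |φ x - φ y| ≤ 2 * L := by
      rw [abs_le]
      constructor <;> linarith [n1.1, n1.2, n2.1, n2.2]
    refine (clamp _ _).trans ?_
    have hA0 : 0 < A := by linarith
    have e1 : φ x / A - φ y / B = φ x * (B - A) / (A * B) + (φ x - φ y) / B := by
      field_simp
      ring
    rw [← hr, ← hA, ← hB, e1]
    refine (abs_add_le _ _).trans ?_
    rw [abs_div, abs_mul, abs_of_pos (mul_pos hA0 hB0), abs_div, abs_of_pos hB0]
    have e2 : |φ x| * |B - A| / (A * B) ≤ (2 * A + 2 + L) * 1 / (A * (A / 2)) := by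
      refine div_le_div₀ (by positivity) (mul_le_mul hfx hAB (abs_nonneg _) (by positivity))
        (by positivity) (mul_le_mul_of_nonneg_left hB1 hA0.le)
    have e3 : |φ x - φ y| / B ≤ 2 * L / (A / 2) :=
      div_le_div₀ (by positivity) hfxy (by positivity) hB1
    have e4 : (2 * A + 2 + L) * 1 / (A * (A / 2)) ≤ (6 + L) / A := by
      rw [div_le_div_iff₀ (by positivity) hA0]
      nlinarith [mul_nonneg hA0.le (mul_nonneg hL.le (by linarith : (0 : ℝ) ≤ A - 2)),
        mul_nonneg hA0.le (by linarith : (0 : ℝ) ≤ A - 2)]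
    have e5 : 2 * L / (A / 2) = 4 * L / A := by
      field_simp
      ring
    have e6 : (6 + 5 * L) / A = (6 + L) / A + 4 * L / A := by
      rw [← add_div]
      congr 1
      ring
    linarith
  have hgoal0 : 0 ≤ (6 + 5 * L) / A := by positivity
  by_cases c1 : |φ x| ≤ 2 * A
  · exact key x (by rw [dist_self]; exact dist_nonneg) le_rfl c1
  by_cases c2 : |φ y| ≤ 2 * B
  · exact key y le_rfl (by rw [dist_self]; exact dist_nonneg) c2
  push Not at c1 c2
  obtain ⟨γ, hγ0, hγ1, hγc, hγd⟩ := geod hX x y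
  have hcont : ContinuousOn (fun u => φ (γ u)) (Icc 0 (dist x y)) := hφc.comp_continuousOn hγc
  have hzero : (∃ u ∈ Icc 0 (dist x y), φ (γ u) = 0) →
      |FF φ o x - FF φ o y| ≤ (6 + 5 * L) / A := by
    rintro ⟨u, hu, h0⟩
    have hd := hγd u hu
    refine key (γ u) (by rw [hd.1]; exact hu.2) (by rw [hd.2]; linarith [hu.1]) ?_
    rw [h0, abs_zero]
    have h1 := dist_triangle o (γ u) x
    rw [dist_comm (γ u) x, hd.1] at h1
    have h2 : 1 ≤ dist o (γ u) := by
      have h3 : (1 : ℝ) + 2 ≤ Real.exp 2 := by linarith [Real.add_one_le_exp (2 : ℝ)]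
      linarith [hu.2]
    have := Real.log_nonneg h2
    linarith
  rcases lt_abs.1 c1 with hx1 | hx1 <;> rcases lt_abs.1 c2 with hy1 | hy1
  · rw [FF_one (by linarith) (by linarith), FF_one hB0 (by linarith), sub_self, abs_zero]
    exact hgoal0
  · refine hzero ?_
    obtain ⟨u, hu, h0⟩ := intermediate_value_Icc' (dist_nonneg (x := x) (y := y)) hcont
      (show (0 : ℝ) ∈ Icc (φ (γ (dist x y))) (φ (γ 0)) by
        rw [hγ0, hγ1]
        constructor <;> linarith)
    exact ⟨u, hu, h0⟩
  · refine hzero ?_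
    obtain ⟨u, hu, h0⟩ := intermediate_value_Icc (dist_nonneg (x := x) (y := y)) hcont
      (show (0 : ℝ) ∈ Icc (φ (γ 0)) (φ (γ (dist x y))) by
        rw [hγ0, hγ1]
        constructor <;> linarith)
    exact ⟨u, hu, h0⟩
  · rw [FF_zero (by linarith) (by linarith), FF_zero hB0 (by linarith), sub_self, abs_zero]
    exact hgoal0

end Pool.Agent.R524.SD
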