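import Pool.Agent.R524.SD.Foot

/-!
# Two long perpendiculars with close ends give a segment at almost constant distance (helper524)
-/

set_option autoImplicit false

universe u v

open Metric Set Filter Topology
open Pool.Agent.TH60.FP Pool.Agent.Y34.HB Pool.Agent.Y34.EL
open Pool.Agent.Y901.EL (on_dist on_restrict on_symm on_nonneg on_le)

namespace Pool.Agent.R524.SD

variable {X : Type u} [MetricSpace X]

/-- points at the same height on two long perpendiculars with close ends -/
theorem top [ProperSpace X] (hX : CN X) {c : ℝ → X} (hc : Isometry c) {p q P Q : X}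
    {a b T H y : ℝ} (hp : Foot c p a) (hq : Foot c q b) (hab : a < b) (hpq : dist p q ≤ T)
    (hH1 : H ≤ dist p (c a)) (hH2 : H ≤ dist q (c b)) (hy0 : 0 ≤ y) (hyH : 3 * T * y ≤ H)
    (hyH' : y ≤ H) (hH0 : 0 < H)
    (hP : On (c a) p y P) (hQ : On (c b) q y Q) : dist P Q ≤ b - a + 1 := by
  obtain ⟨hex, huniq, -⟩ := t_stew X hX
  have hwT : b - a ≤ T := by
    have := foot_lip hX hc hp hq
    rw [abs_sub_comm, abs_of_nonneg (by linarith)] at this
    linarith
  set l1 := dist p (c a) with hl1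
  set l2 := dist q (c b) with hl2
  have hl1p : 0 < l1 := by linarith
  have hl2p : 0 < l2 := by linarith
  have hcomm1 : dist (c a) p = l1 := dist_comm _ _
  have hcomm2 : dist (c b) q = l2 := dist_comm _ _
  set l := y / l1 with hl
  have hl0 : 0 ≤ l := by positivity
  have hl1' : l ≤ 1 := (div_le_one hl1p).2 (by linarith)
  have hll : l * l1 = y := div_mul_cancel₀ _ hl1p.ne'
  obtain ⟨Q', hQ'⟩ := hex (c b) q (l * l2) (by positivity) (by rw [hcomm2]; nlinarith)
  have h1 := (t_cmp X hX).2 (c a) p (c b) q l P Q' (by rw [hcomm1, hll]; exact hP)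
    (by rw [hcomm2]; exact hQ') hl0 hl1'
  rw [line_dist hc, abs_sub_comm, abs_of_nonneg (by linarith : 0 ≤ b - a)] at h1
  have h2 : dist Q' Q = |l * l2 - y| := on_dist t_stew hX hQ' hQ
  have hdl : |l2 - l1| ≤ 2 * T := by
    have t1 := dist_triangle q p (c b)
    have t2 := dist_triangle p (c a) (c b)
    have t3 := dist_triangle p q (c a)
    have t4 := dist_triangle q (c b) (c a)
    rw [line_dist hc, abs_sub_comm, abs_of_nonneg (by linarith : 0 ≤ b - a)] at t2
    rw [line_dist hc, abs_of_nonneg (by linarith : 0 ≤ b - a)] at t4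
    rw [dist_comm q p] at t1
    rw [abs_le]
    constructor <;> linarith
  have h3 : |l * l2 - y| ≤ l * (2 * T) := by
    have : l * l2 - y = l * (l2 - l1) := by rw [← hll]; ring
    rw [this, abs_mul, abs_of_nonneg hl0]
    exact mul_le_mul_of_nonneg_left hdl hl0
  have h4 : l * T * 3 ≤ 1 := by
    have : l * T * 3 = 3 * T * y / l1 := by rw [hl]; ring
    rw [this, div_le_one hl1p]
    linarith
  have h5 := dist_triangle P Q' Q
  rw [h2] at h5
  have h6 : (1 - l) * (b - a) ≤ b - a := by nlinarith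
  have h7 : l * dist p q ≤ l * T := mul_le_mul_of_nonneg_left hpq hl0
  linarith

/-- two long perpendiculars with close ends -/
theorem rect [ProperSpace X] (hX : CN X) {c : ℝ → X} (hc : Isometry c) {p q : X}
    {a b T H h y : ℝ} (hp : Foot c p a) (hq : Foot c q b) (hab : a < b) (hpq : dist p q ≤ T)
    (hH1 : H ≤ dist p (c a)) (hH2 : H ≤ dist q (c b)) (h0 : 0 < h) (hy : h + (b - a + 1) ^ 2 ≤ y)
    (hyH : 3 * T * y ≤ H) (hyH' : y ≤ H) :
    ∃ P Q : X, b - a ≤ dist P Q ∧ ∀ (u : ℝ) (N : X), On P Q u N →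
      dist N (c (a + u)) ≤ h + 1 ∧ ∀ t, h - 1 ≤ dist N (c t) := by
  obtain ⟨hex, huniq, hst⟩ := t_stew X hX
  have hwT : b - a ≤ T := by
    have := foot_lip hX hc hp hq
    rw [abs_sub_comm, abs_of_nonneg (by linarith)] at this
    linarith
  have hT0 : 0 < T := by linarith
  have hy1 : h + 1 ≤ y := by nlinarith
  have hH0 : 0 < H := by linarith
  have hcomm1 : dist (c a) p = dist p (c a) := dist_comm _ _
  have hcomm2 : dist (c b) q = dist q (c b) := dist_comm _ _
  obtain ⟨Py, hPy⟩ := hex (c a) p y (by linarith) (by rw [hcomm1]; linarith)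
  obtain ⟨Qy, hQy⟩ := hex (c b) q y (by linarith) (by rw [hcomm2]; linarith)
  obtain ⟨P, hP⟩ := hex (c a) p h h0.le (by rw [hcomm1]; linarith)
  obtain ⟨Q, hQ⟩ := hex (c b) q h h0.le (by rw [hcomm2]; linarith)
  have htopy := top hX hc hp hq hab hpq hH1 hH2 (by linarith) hyH hyH' hH0 hPy hQy
  have htoph := top hX hc hp hq hab hpq hH1 hH2 h0.le (by nlinarith) (by linarith) hH0 hP hQ
  have fPy := foot_seg hX hc hp hPy
  have fQy := foot_seg hX hc hq hQy
  have fP := foot_seg hX hc hp hP
  have fQ := foot_seg hX hc hq hQ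
  have hPQ : b - a ≤ dist P Q := by
    have := foot_lip hX hc fP fQ
    rwa [abs_sub_comm, abs_of_nonneg (by linarith)] at this
  refine ⟨P, Q, hPQ, ?_⟩
  have hdPy : dist Py (c a) = y := by rw [dist_comm]; exact hPy.1
  have hdQy : dist Qy (c b) = y := by rw [dist_comm]; exact hQy.1
  have hdP : dist P (c a) = h := by rw [dist_comm]; exact hP.1
  have hdQ : dist Q (c b) = h := by rw [dist_comm]; exact hQ.1
  set w := b - a with hw
  have hw0 : 0 < w := by linarith
  -- the diagonal from `c a` to `Qy`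
  have h1 : dist Qy (c a) ^ 2 ≤ y ^ 2 + (w + 1) ^ 2 := by
    have e1 := quad hX (c a) (c b) Qy Py
    have e2 := fPy b
    rw [hdPy] at e2
    rw [line_dist hc, abs_sub_comm, abs_of_nonneg (by linarith : 0 ≤ b - a), dist_comm (c b) Qy,
      hdQy, hdPy, dist_comm (c b) Py, dist_comm (c a) Qy, dist_comm Qy Py] at e1
    have e3 : dist Py Qy ^ 2 ≤ (w + 1) ^ 2 := pow_le_pow_left₀ dist_nonneg htopy 2
    have e4 : (b - a) ^ 2 = w ^ 2 := rfl
    nlinarith
  -- the distance from `Qy` to `P`
  have hPr : On (c a) Py h P := on_restrict t_stew hX hP hPy (by linarith)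
  have h2 : dist Qy P ^ 2 ≤ (y - h) ^ 2 + (w + 1) ^ 2 := by
    have e1 := hst (c a) Py h P hPr Qy
    rw [hPy.1] at e1
    have e3 : dist Qy Py ^ 2 ≤ (w + 1) ^ 2 := by
      rw [dist_comm]
      exact pow_le_pow_left₀ dist_nonneg htopy 2
    have e5 : (y - h) * dist Qy (c a) ^ 2 ≤ (y - h) * (y ^ 2 + (w + 1) ^ 2) :=
      mul_le_mul_of_nonneg_left h1 (by linarith)
    have e6 : h * dist Qy Py ^ 2 ≤ h * (w + 1) ^ 2 := mul_le_mul_of_nonneg_left e3 h0.le
    have e7 : y * dist Qy P ^ 2 ≤ y * ((y - h) ^ 2 + (w + 1) ^ 2) := by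
      calc y * dist Qy P ^ 2 ≤ _ := e1
        _ ≤ (y - h) * (y ^ 2 + (w + 1) ^ 2) + h * (w + 1) ^ 2 - h * (y - h) * y := by linarith
        _ = _ := by ring
    exact le_of_mul_le_mul_left e7 (by linarith)
  have h3 : dist Qy Q = y - h := by
    rw [on_dist t_stew hX hQy hQ, abs_of_nonneg (by linarith)]
  have he0 : 0 < dist P Q := by linarith
  intro u N hN
  have hu0 : 0 ≤ u := on_nonneg hN
  have hu1 : u ≤ dist P Q := on_le hN
  constructor
  · -- upper bound
    set e := dist P Q with he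
    set l := u / e with hl
    have hl0 : 0 ≤ l := by positivity
    have hl1 : l ≤ 1 := (div_le_one he0).2 hu1
    have hle : l * e = u := div_mul_cancel₀ _ he0.ne'
    have hlw : 0 ≤ l * w := by positivity
    have hon : On (c a) (c b) (l * dist (c a) (c b)) (c (a + l * w)) := by
      have hd : dist (c a) (c b) = w := by
        rw [line_dist hc, abs_sub_comm, abs_of_nonneg (by linarith)]
      rw [hd]
      refine ⟨?_, ?_⟩
      · rw [line_dist hc, abs_sub_comm, add_sub_cancel_left, abs_of_nonneg hlw]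
      · rw [hd, line_dist hc, abs_sub_comm, abs_of_nonneg (by
          have : l * w ≤ w := by nlinarith
          linarith)]
        rw [hw]
        ring
    have h4 := (t_cmp X hX).2 P Q (c a) (c b) l N (c (a + l * w)) (by rw [← he, hle]; exact hN)
      hon hl0 hl1
    rw [hdP, hdQ] at h4
    have h5 := dist_triangle N (c (a + l * w)) (c (a + u))
    rw [line_dist hc] at h5
    have h6 : |a + l * w - (a + u)| ≤ 1 := by
      have : a + l * w - (a + u) = l * (w - e) := by rw [← hle]; ring
      rw [this, abs_mul, abs_of_nonneg hl0]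
      have h7 : |w - e| ≤ 1 := by rw [abs_le]; constructor <;> linarith
      calc l * |w - e| ≤ 1 * 1 := mul_le_mul hl1 h7 (abs_nonneg _) zero_le_one
        _ = 1 := one_mul 1
    have h8 : (1 - l) * h + l * h = h := by ring
    linarith
  · -- lower bound
    have h4 : dist Qy N ^ 2 ≤ (y - h) ^ 2 + (w + 1) ^ 2 := by
      have e1 := hst P Q u N hN Qy
      rw [h3] at e1
      have e2 : (dist P Q - u) * dist Qy P ^ 2 ≤
          (dist P Q - u) * ((y - h) ^ 2 + (w + 1) ^ 2) :=
        mul_le_mul_of_nonneg_left h2 (by linarith)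
      have e3 : u * (y - h) ^ 2 ≤ u * ((y - h) ^ 2 + (w + 1) ^ 2) :=
        mul_le_mul_of_nonneg_left (by nlinarith [sq_nonneg (w + 1)]) hu0
      have e4 : 0 ≤ u * (dist P Q - u) * dist P Q := by
        have : 0 ≤ dist P Q - u := by linarith
        positivity
      have e5 : dist P Q * dist Qy N ^ 2 ≤ dist P Q * ((y - h) ^ 2 + (w + 1) ^ 2) := by
        calc dist P Q * dist Qy N ^ 2 ≤ _ := e1
          _ ≤ (dist P Q - u) * ((y - h) ^ 2 + (w + 1) ^ 2) +
              u * ((y - h) ^ 2 + (w + 1) ^ 2) := by linarith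
          _ = _ := by ring
      exact le_of_mul_le_mul_left e5 he0
    have h5 : dist Qy N ≤ (y - h) + 1 := by
      refine (pow_le_pow_iff_left₀ dist_nonneg (by linarith) two_ne_zero).1 (h4.trans ?_)
      nlinarith
    intro t
    have h6 := foot_min fQy t
    rw [hdQy] at h6
    have h7 := dist_triangle Qy N (c t)
    linarith

end Pool.Agent.R524.SD
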