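import Pool.Agent.R524.SD.Osc

/-!
# Smoothing at the scale of the distance from the base point (helper524)
-/

set_option autoImplicit false

universe u v

open Metric Set Filter Topology

namespace Pool.Agent.R524.SD

/-- the weight -/
noncomputable def wt {X : Type u} [MetricSpace X] (o : X) (K : ℝ) (y : X) : ℝ :=
  K / (max (dist o y) 3 * Real.log (max (dist o y) 3))

/-- smoothing -/
noncomputable def sm {X : Type u} [MetricSpace X] (o : X) (F : X → ℝ) (θ K : ℝ) (x : X) : ℝ :=
  ⨅ y : {y : X // dist x y ≤ θ * dist o x}, (F y + wt o K y * dist x y)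

theorem log3 : 1 ≤ Real.log 3 := by
  rw [Real.le_log_iff_exp_le (by norm_num)]
  have := Real.exp_one_lt_d9
  linarith

theorem log_half {r : ℝ} (hr : 4 ≤ r) : Real.log r / 2 ≤ Real.log (r / 2) := by
  have h1 : Real.log 4 ≤ Real.log r := Real.log_le_log (by norm_num) hr
  have h2 : Real.log 4 = 2 * Real.log 2 := by
    rw [show (4 : ℝ) = 2 ^ 2 by norm_num, Real.log_pow]
    norm_num
  rw [Real.log_div (by linarith) (by norm_num)]
  linarith

theorem log_double {r : ℝ} (hr : 4 ≤ r) : Real.log (2 * r) ≤ 2 * Real.log r := by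
  rw [Real.log_mul (by norm_num) (by linarith)]
  have h1 : Real.log 2 ≤ Real.log r := Real.log_le_log (by norm_num) (by linarith)
  linarith

section

variable {X : Type u} [MetricSpace X] {o : X} {F : X → ℝ} {θ C K R₀ : ℝ}

theorem wt_nonneg (hK : 0 < K) (y : X) : 0 ≤ wt o K y := by
  have h1 : (3 : ℝ) ≤ max (dist o y) 3 := le_max_right _ _
  have h2 := log3.trans (Real.log_le_log (by norm_num) h1)
  unfold wt
  positivity

theorem sm_bdd (hF0 : ∀ x, 0 ≤ F x) (hK : 0 < K) (x : X) :
    BddBelow (range fun y : {y : X // dist x y ≤ θ * dist o x} => F y + wt o K y * dist x y) := by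
  refine ⟨0, ?_⟩
  rintro _ ⟨y, rfl⟩
  have := mul_nonneg (wt_nonneg (o := o) hK y.1) (dist_nonneg (x := x) (y := y.1))
  show (0 : ℝ) ≤ F y + wt o K y * dist x y
  linarith [hF0 y.1]

theorem sm_le (hF0 : ∀ x, 0 ≤ F x) (hθ : 0 < θ) (hK : 0 < K) (x : X) : sm o F θ K x ≤ F x := by
  refine (ciInf_le (sm_bdd hF0 hK x) ⟨x, by
    rw [dist_self]
    have := dist_nonneg (x := o) (y := x)
    positivity⟩).trans ?_
  show F x + wt o K x * dist x x ≤ F x
  rw [dist_self, mul_zero, add_zero]

theorem sm_ge (hθ : 0 < θ) (hK : 0 < K) (x : X) (a : ℝ)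
    (h : ∀ y, dist x y ≤ θ * dist o x → a ≤ F y) : a ≤ sm o F θ K x := by
  have hne : Nonempty {y : X // dist x y ≤ θ * dist o x} := ⟨⟨x, by
    rw [dist_self]
    have := dist_nonneg (x := o) (y := x)
    positivity⟩⟩
  refine le_ciInf fun y => ?_
  have := mul_nonneg (wt_nonneg (o := o) hK y.1) (dist_nonneg (x := x) (y := y.1))
  linarith [h y.1 y.2]

theorem sm_step (hF0 : ∀ x, 0 ≤ F x) (hθ : 0 < θ) (hθ1 : θ ≤ 1 / 8) (hC : 0 < C)
    (hosc : ∀ x y : X, R₀ ≤ dist o x → dist x y ≤ θ * dist o x →
      |F x - F y| ≤ C / Real.log (dist o x)) (hK : K = 32 * C / θ) (B : ℝ) (hB : 0 ≤ B) (x x' : X)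
    (h1 : R₀ ≤ dist o x) (h2 : 8 ≤ dist o x) (h3 : 4 * B / θ ≤ dist o x) (hx : dist x x' ≤ B) :
    sm o F θ K x' ≤ sm o F θ K x + 4 * K * B / (dist o x * Real.log (dist o x)) := by
  have hK0 : 0 < K := by rw [hK]; positivity
  set r := dist o x with hr
  have hr0 : 0 < r := by linarith
  have hlog : 1 ≤ Real.log r := log3.trans (Real.log_le_log (by norm_num) (by linarith))
  set A := Real.log r with hA
  have hA0 : 0 < A := by linarith
  rw [div_le_iff₀ hθ] at h3
  refine le_of_forall_pos_le_add fun ε hε => ?_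
  have hne : Nonempty {y : X // dist x y ≤ θ * dist o x} := ⟨⟨x, by
    rw [dist_self]
    have := dist_nonneg (x := o) (y := x)
    positivity⟩⟩
  have hε' : 0 < min ε (C / A) := lt_min hε (by positivity)
  obtain ⟨⟨y, hy⟩, hy2⟩ := exists_lt_of_ciInf_lt
    (show (⨅ y : {y : X // dist x y ≤ θ * dist o x}, (F y + wt o K y * dist x y)) <
      sm o F θ K x + min ε (C / A) by
        have : sm o F θ K x = ⨅ y : {y : X // dist x y ≤ θ * dist o x},
          (F y + wt o K y * dist x y) := rfl
        rw [← this]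
        linarith)
  have hy2' : F y + wt o K y * dist x y < sm o F θ K x + min ε (C / A) := hy2
  rw [← hr] at hy
  have hsm := sm_le (o := o) hF0 hθ hK0 x
  have ho := abs_le.1 (hosc x y h1 hy)
  rw [← hr, ← hA] at ho
  have hm1 := min_le_left ε (C / A)
  have hm2 := min_le_right ε (C / A)
  have hwd : wt o K y * dist x y ≤ 2 * C / A := by
    have e : 2 * C / A = C / A + C / A := by ring
    rw [e]
    linarith [ho.2]
  -- the size of `y`
  have hθr : θ * r ≤ r / 8 := by nlinarith
  have hy3 : 7 / 8 * r ≤ dist o y := by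
    have := dist_triangle o y x
    rw [dist_comm y x] at this
    linarith
  have hy4 : dist o y ≤ 2 * r := by
    have := dist_triangle o x y
    linarith
  have hmax : max (dist o y) 3 = dist o y := max_eq_left (by linarith)
  have hly1 : A / 2 ≤ Real.log (dist o y) :=
    (log_half (by linarith)).trans (Real.log_le_log (by linarith) (by linarith))
  have hly2 : Real.log (dist o y) ≤ 2 * A :=
    (Real.log_le_log (by linarith) hy4).trans (log_double (by linarith))
  have hwt : wt o K y = K / (dist o y * Real.log (dist o y)) := by rw [wt, hmax]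
  have hy0 : 0 < dist o y := by linarith
  have hly0 : 0 < Real.log (dist o y) := by linarith
  have hw1 : K / (4 * r * A) ≤ wt o K y := by
    rw [hwt]
    refine div_le_div_of_nonneg_left hK0.le (by positivity) ?_
    calc dist o y * Real.log (dist o y) ≤ (2 * r) * (2 * A) :=
          mul_le_mul hy4 hly2 hly0.le (by positivity)
      _ = 4 * r * A := by ring
  have hw2 : wt o K y ≤ 4 * K / (r * A) := by
    rw [hwt, div_le_div_iff₀ (by positivity) (by positivity)]
    have : r * A ≤ 4 * (dist o y * Real.log (dist o y)) := by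
      have h5 : r / 2 * (A / 2) ≤ dist o y * Real.log (dist o y) :=
        mul_le_mul (by linarith) hly1 (by positivity) hy0.le
      linarith
    calc K * (r * A) ≤ K * (4 * (dist o y * Real.log (dist o y))) :=
          mul_le_mul_of_nonneg_left this hK0.le
      _ = _ := by ring
  have hdxy : dist x y ≤ θ * r / 4 := by
    have e1 : K / (4 * r * A) * dist x y ≤ 2 * C / A :=
      (mul_le_mul_of_nonneg_right hw1 dist_nonneg).trans hwd
    have e2 : K / (4 * r * A) * dist x y = (8 * C * dist x y) / (θ * r * A) := by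
      rw [hK]
      field_simp
      ring
    rw [e2, div_le_div_iff₀ (by positivity) hA0] at e1
    have e3 : (8 * C * A) * dist x y ≤ (8 * C * A) * (θ * r / 4) := by
      calc (8 * C * A) * dist x y = 8 * C * dist x y * A := by ring
        _ ≤ 2 * C * (θ * r * A) := e1
        _ = _ := by ring
    exact le_of_mul_le_mul_left e3 (by positivity)
  have hx'r : r - B ≤ dist o x' := by
    have := dist_triangle o x' x
    rw [dist_comm x' x] at this
    linarith
  have hx'y : dist x' y ≤ dist x y + B := by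
    have := dist_triangle x' x y
    rw [dist_comm x' x] at this
    linarith
  have hy' : dist x' y ≤ θ * dist o x' := by
    have e1 : θ * (r - B) ≤ θ * dist o x' := mul_le_mul_of_nonneg_left hx'r hθ.le
    have e2 : θ * B ≤ B := by nlinarith
    have e3 : θ * (r - B) = θ * r - θ * B := by ring
    linarith
  refine (ciInf_le (sm_bdd hF0 hK0 x') ⟨y, hy'⟩).trans ?_
  show F y + wt o K y * dist x' y ≤ _
  have e1 : wt o K y * dist x' y ≤ wt o K y * dist x y + wt o K y * B := by
    rw [← mul_add]
    exact mul_le_mul_of_nonneg_left hx'y (wt_nonneg hK0 y)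
  have e2 : wt o K y * B ≤ 4 * K / (r * A) * B := mul_le_mul_of_nonneg_right hw2 hB
  have e3 : 4 * K / (r * A) * B = 4 * K * B / (r * A) := by ring
  linarith

end

/-- smoothing a function with small oscillations at the scale of the distance to `o` -/
theorem smooth {X : Type u} [MetricSpace X] (o : X) (F : X → ℝ) (hF0 : ∀ x, 0 ≤ F x)
    (θ C R₀ : ℝ) (hθ : 0 < θ) (hθ1 : θ ≤ 1 / 8) (hC : 0 < C)
    (hosc : ∀ x y : X, R₀ ≤ dist o x → dist x y ≤ θ * dist o x →
      |F x - F y| ≤ C / Real.log (dist o x)) :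
    ∃ f : X → ℝ, (∀ x, 0 ≤ f x) ∧ (∀ x, f x ≤ F x) ∧
      (∀ x, R₀ ≤ dist o x → F x - C / Real.log (dist o x) ≤ f x) ∧
      ∀ B : ℝ, 0 ≤ B → ∃ C₂ R₂ : ℝ, 0 < C₂ ∧ 3 ≤ R₂ ∧ ∀ x y, R₂ ≤ dist o x → dist x y ≤ B →
        |f x - f y| ≤ C₂ / (dist o x * Real.log (dist o x)) := by
  set K : ℝ := 32 * C / θ with hK
  have hK0 : 0 < K := by positivity
  refine ⟨sm o F θ K, fun x => sm_ge hθ hK0 x 0 fun y _ => hF0 y, sm_le hF0 hθ hK0, fun x hx => ?_,
    fun B hB => ?_⟩
  · refine sm_ge hθ hK0 x _ fun y hy => ?_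
    linarith [(abs_le.1 (hosc x y hx hy)).2]
  · set R : ℝ := max (max R₀ 8) (4 * B / θ) with hR
    have a1 : R₀ ≤ R := (le_max_left _ _).trans (le_max_left _ _)
    have a2 : 8 ≤ R := (le_max_right _ _).trans (le_max_left _ _)
    have a3 : 4 * B / θ ≤ R := le_max_right _ _
    refine ⟨16 * K * B + 1, R + 2 * B, by positivity, by linarith, fun x y hx hxy => ?_⟩
    have hyx : dist o x - B ≤ dist o y := by
      have := dist_triangle o y x
      rw [dist_comm y x] at this
      linarith
    have s1 := sm_step hF0 hθ hθ1 hC hosc hK B hB x y (by linarith) (by linarith) (by linarith) hxy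
    have s2 := sm_step hF0 hθ hθ1 hC hosc hK B hB y x (by linarith) (by linarith) (by linarith)
      (by rw [dist_comm]; exact hxy)
    set r := dist o x with hr
    have hr8 : 8 ≤ r := by linarith
    have hlog : 1 ≤ Real.log r := log3.trans (Real.log_le_log (by norm_num) (by linarith))
    have hly1 : Real.log r / 2 ≤ Real.log (dist o y) :=
      (log_half (by linarith)).trans (Real.log_le_log (by linarith) (by linarith))
    have hKB : 0 ≤ K * B := by positivity
    have hrl : 0 < r * Real.log r := by positivity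
    have e1 : 4 * K * B / (dist o y * Real.log (dist o y)) ≤ 16 * K * B / (r * Real.log r) := by
      have h5 : r / 2 * (Real.log r / 2) ≤ dist o y * Real.log (dist o y) :=
        mul_le_mul (by linarith) hly1 (by positivity) dist_nonneg
      have h6 : 0 < dist o y * Real.log (dist o y) := lt_of_lt_of_le (by positivity) h5
      rw [div_le_div_iff₀ h6 hrl]
      nlinarith
    have e2 : 4 * K * B / (r * Real.log r) ≤ 16 * K * B / (r * Real.log r) :=
      div_le_div_of_nonneg_right (by linarith) hrl.le
    have e3 : 16 * K * B / (r * Real.log r) ≤ (16 * K * B + 1) / (r * Real.log r) :=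
      div_le_div_of_nonneg_right (by linarith) hrl.le
    rw [abs_le]
    constructor <;> linarith

end Pool.Agent.R524.SD
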